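import Pool.Agent.Lib.H38RIP.Exist

namespace H38RIP

theorem card_window (Y : Finset ℕ) (R B c : ℕ) (h : ∀ x ∈ Y, R ≤ x * c + B ∧ x * c ≤ R) :
    Y.card * c ≤ B + c := by
  rcases Y.eq_empty_or_nonempty with h0 | h0
  · subst h0; simp
  · have hmin := h _ (Y.min'_mem h0)
    have hmax := h _ (Y.max'_mem h0)
    set lo := Y.min' h0
    set hi := Y.max' h0
    have hsub : Y ⊆ Finset.Icc lo hi := by
      intro x hx
      rw [Finset.mem_Icc]
      exact ⟨Y.min'_le x hx, Y.le_max' x hx⟩
    have hcard := Finset.card_le_card hsub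
    rw [Nat.card_Icc] at hcard
    have hle : lo ≤ hi := Y.min'_le _ (Y.max'_mem h0)
    have h1 : (hi + 1 - lo) * c ≤ B + c := by
      have e : (hi + 1 - lo) * c = (hi - lo) * c + c := by
        rw [show hi + 1 - lo = (hi - lo) + 1 by omega]; ring
      have e2 : (hi - lo) * c = hi * c - lo * c := Nat.sub_mul _ _ _
      rw [e, e2]
      omega
    exact (Nat.mul_le_mul_right _ hcard).trans h1

/-- digit vectors with sum `R` -/
def Dig (a : ℕ → ℕ) (L K R : ℕ) : Finset (Fin (K + 1) → ℕ) :=
  (Fintype.piFinset fun _ : Fin (K + 1) => Finset.range (L + 1)).filter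
    (fun d => ∑ k : Fin (K + 1), d k * a k = R)

theorem dig_card {C : ℕ} {a : ℕ → ℕ} (h : Good C a) (L : ℕ) : ∀ K : ℕ,
    (∀ k < K, a (k + 1) ≤ L * a k) → ∀ R, (Dig a L K R).card * a K ≤ (3 * L) ^ K := by
  intro K
  induction K with
  | zero =>
    intro _ R
    rw [h.zero, mul_one, pow_zero]
    rw [Finset.card_le_one]
    intro x hx y hy
    unfold Dig at hx hy
    rw [Finset.mem_filter] at hx hy
    funext i
    have hi : i = 0 := Fin.ext (by omega)
    subst hi
    have h1 := hx.2
    have h2 := hy.2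
    simp [h.zero] at h1 h2
    rw [h1, h2]
  | succ K ih =>
    intro hup R
    have ih' := ih (fun k hk => hup k (by omega))
    have hfib : ∀ b ∈ (Dig a L (K + 1) R).image (fun d => d (Fin.last (K + 1))),
        ((Dig a L (K + 1) R).filter (fun d => d (Fin.last (K + 1)) = b)).card
          ≤ (3 * L) ^ K / a K := by
      intro b _
      rw [Nat.le_div_iff_mul_le (h.pos K)]
      refine le_trans (Nat.mul_le_mul_right _ ?_) (ih' (R - b * a (K + 1)))
      refine Finset.card_le_card_of_injOn (fun d => fun i : Fin (K + 1) => d i.castSucc) ?_ ?_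
      · intro d hd
        have hd' : d ∈ (Dig a L (K + 1) R).filter (fun d => d (Fin.last (K + 1)) = b) := hd
        rw [Finset.mem_filter] at hd'
        unfold Dig at hd'
        rw [Finset.mem_filter, Fintype.mem_piFinset] at hd'
        obtain ⟨⟨h1, h2⟩, h3⟩ := hd'
        show _ ∈ Dig a L K (R - b * a (K + 1))
        unfold Dig
        rw [Finset.mem_filter, Fintype.mem_piFinset]
        refine ⟨fun i => h1 _, ?_⟩
        rw [Fin.sum_univ_castSucc, h3] at h2
        simp only [Fin.val_castSucc, Fin.val_last] at h2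
        show ∑ i : Fin (K + 1), d i.castSucc * a i = R - b * a (K + 1)
        omega
      · intro d hd d' hd' hdd
        have hd1 : d ∈ (Dig a L (K + 1) R).filter (fun d => d (Fin.last (K + 1)) = b) := hd
        have hd2 : d' ∈ (Dig a L (K + 1) R).filter (fun d => d (Fin.last (K + 1)) = b) := hd'
        rw [Finset.mem_filter] at hd1 hd2
        funext i
        refine Fin.lastCases ?_ (fun i => ?_) i
        · rw [hd1.2, hd2.2]
        · exact congrFun hdd i
    have h1 := Finset.card_le_mul_card_image (Dig a L (K + 1) R) ((3 * L) ^ K / a K) hfib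
    set Y := (Dig a L (K + 1) R).image (fun d => d (Fin.last (K + 1))) with hY
    have hT : ∑ k ∈ Finset.range (K + 1), a k ≤ 2 * a K - 1 := h.sum_le K
    have hYw : Y.card * a (K + 1) ≤ L * (2 * a K) + a (K + 1) := by
      refine card_window Y R _ _ ?_
      intro x hx
      rw [hY, Finset.mem_image] at hx
      obtain ⟨d, hd, rfl⟩ := hx
      unfold Dig at hd
      rw [Finset.mem_filter, Fintype.mem_piFinset] at hd
      obtain ⟨h2, h3⟩ := hd
      rw [Fin.sum_univ_castSucc] at h3
      simp only [Fin.val_castSucc, Fin.val_last] at h3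
      have h4 : ∑ i : Fin (K + 1), d i.castSucc * a i ≤ L * (2 * a K) := by
        calc ∑ i : Fin (K + 1), d i.castSucc * a i ≤ ∑ i : Fin (K + 1), L * a i := by
              refine Finset.sum_le_sum fun i _ => Nat.mul_le_mul_right _ ?_
              have := h2 i.castSucc
              rw [Finset.mem_range] at this
              omega
          _ = L * ∑ i : Fin (K + 1), a i := by rw [Finset.mul_sum]
          _ = L * ∑ k ∈ Finset.range (K + 1), a k := by
              rw [Fin.sum_univ_eq_sum_range (fun k => a k)]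
          _ ≤ L * (2 * a K) := Nat.mul_le_mul_left _ (by omega)
      constructor
      · omega
      · omega
    have hupK := hup K (by omega)
    have hY3 : Y.card * a (K + 1) ≤ 3 * L * a K := by
      calc Y.card * a (K + 1) ≤ L * (2 * a K) + a (K + 1) := hYw
        _ ≤ L * (2 * a K) + L * a K := Nat.add_le_add_left hupK _
        _ = 3 * L * a K := by ring
    calc (Dig a L (K + 1) R).card * a (K + 1)
        ≤ ((3 * L) ^ K / a K * Y.card) * a (K + 1) := Nat.mul_le_mul_right _ h1
      _ = (3 * L) ^ K / a K * (Y.card * a (K + 1)) := by ring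
      _ ≤ (3 * L) ^ K / a K * (3 * L * a K) := Nat.mul_le_mul_left _ hY3
      _ = ((3 * L) ^ K / a K * a K) * (3 * L) := by ring
      _ ≤ (3 * L) ^ K * (3 * L) := Nat.mul_le_mul_right _ (Nat.div_mul_le_self _ _)
      _ = (3 * L) ^ (K + 1) := by rw [pow_succ]

/-- starting points of the blocks of level `≤ J`, and `0` -/
def Starts (J : ℕ) : Finset ℕ :=
  insert 0 ((Finset.range (J + 1)).biUnion fun j =>
    insert (2 ^ (2 ^ j)) ((Finset.range (9 * j) ×ˢ Finset.range (3 * j)).image
      fun p => 2 ^ (2 ^ (j + 1) * (p.1 + 1) + p.2)))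

theorem starts_card (J : ℕ) : (Starts J).card ≤ 1 + (J + 1) * (1 + 27 * J ^ 2) := by
  unfold Starts
  refine (Finset.card_insert_le _ _).trans ?_
  rw [add_comm]
  refine Nat.add_le_add_left ?_ _
  refine Finset.card_biUnion_le.trans ?_
  have : ∀ j ∈ Finset.range (J + 1), (insert (2 ^ (2 ^ j))
      ((Finset.range (9 * j) ×ˢ Finset.range (3 * j)).image
      fun p => 2 ^ (2 ^ (j + 1) * (p.1 + 1) + p.2))).card ≤ 1 + 27 * J ^ 2 := by
    intro j hj
    rw [Finset.mem_range] at hj
    refine (Finset.card_insert_le _ _).trans ?_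
    have h1 := Finset.card_image_le (s := Finset.range (9 * j) ×ˢ Finset.range (3 * j))
      (f := fun p : ℕ × ℕ => 2 ^ (2 ^ (j + 1) * (p.1 + 1) + p.2))
    rw [Finset.card_product, Finset.card_range, Finset.card_range] at h1
    have h2 : 9 * j * (3 * j) ≤ 27 * J ^ 2 := by
      calc 9 * j * (3 * j) = 27 * j ^ 2 := by ring
        _ ≤ 27 * J ^ 2 := Nat.mul_le_mul_left _ (Nat.pow_le_pow_left (by omega) 2)
    omega
  calc ∑ j ∈ Finset.range (J + 1), (insert (2 ^ (2 ^ j))
      ((Finset.range (9 * j) ×ˢ Finset.range (3 * j)).image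
      fun p => 2 ^ (2 ^ (j + 1) * (p.1 + 1) + p.2))).card
      ≤ ∑ _j ∈ Finset.range (J + 1), (1 + 27 * J ^ 2) := Finset.sum_le_sum this
    _ = (J + 1) * (1 + 27 * J ^ 2) := by simp

theorem start_of_mem {m n : ℕ} (hm : m ∈ MSet) (hmn : m ≤ n) :
    ∃ s ∈ Starts (Nat.log 2 (Nat.log 2 n)), s ≤ m ∧
      m - s ≤ (Nat.log 2 (Nat.log 2 n)) ^ 2 * 2 ^ (Nat.log 2 (Nat.log 2 n)) := by
  obtain ⟨j, u, d, hu, hd, rfl⟩ := hm
  set J := Nat.log 2 (Nat.log 2 n) with hJ
  have huj : 2 ^ j ≤ u := by
    rcases hu with rfl | ⟨r, s, _, _, rfl⟩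
    · exact le_rfl
    · calc 2 ^ j ≤ 2 ^ (j + 1) := Nat.pow_le_pow_right (by norm_num) (by omega)
        _ ≤ 2 ^ (j + 1) * (r + 1) := Nat.le_mul_of_pos_right _ (by omega)
        _ ≤ _ := Nat.le_add_right _ _
  have hn : n ≠ 0 := by
    have : 0 < 2 ^ u := by positivity
    omega
  have h1 : 2 ^ 2 ^ j ≤ n :=
    (Nat.pow_le_pow_right (by norm_num) huj).trans ((Nat.le_add_right _ _).trans hmn)
  have h2 : 2 ^ j ≤ Nat.log 2 n := Nat.le_log_of_pow_le (by norm_num) h1
  have h3 : j ≤ J := Nat.le_log_of_pow_le (by norm_num) h2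
  refine ⟨2 ^ u, ?_, Nat.le_add_right _ _, ?_⟩
  · unfold Starts
    rw [Finset.mem_insert, Finset.mem_biUnion]
    right
    refine ⟨j, Finset.mem_range.2 (by omega), ?_⟩
    rw [Finset.mem_insert, Finset.mem_image]
    rcases hu with rfl | ⟨r, s, hr, hs, rfl⟩
    · left; rfl
    · right
      exact ⟨(r, s), Finset.mem_product.2 ⟨Finset.mem_range.2 hr, Finset.mem_range.2 hs⟩, rfl⟩
  · rw [Nat.add_sub_cancel_left]
    refine hd.trans ?_
    exact Nat.mul_le_mul (Nat.pow_le_pow_left h3 2) (Nat.pow_le_pow_right (by norm_num) h3)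

/-- number of (A,M)-partitions -/
noncomputable def count (A M : Set ℕ) (n : ℕ) : ℕ :=
  Set.ncard {m : ℕ →₀ ℕ | (∀ x ∈ m.support, x ∈ A ∧ m x ∈ M) ∧ (m.sum fun x c => c * x) = n}

/-- vectors of multiplicities -/
noncomputable def Vec (a : ℕ → ℕ) (K n : ℕ) : Finset (Fin (K + 1) → ℕ) := by
  classical
  exact (Fintype.piFinset fun _ : Fin (K + 1) => Finset.range (n + 1)).filter
    (fun f => (∀ k, f k = 0 ∨ f k ∈ MSet) ∧ ∑ k : Fin (K + 1), f k * a k = n)

theorem mem_vec {a : ℕ → ℕ} {K n : ℕ} {f : Fin (K + 1) → ℕ} :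
    f ∈ Vec a K n ↔ (∀ k, f k ≤ n) ∧ (∀ k, f k = 0 ∨ f k ∈ MSet) ∧
      ∑ k : Fin (K + 1), f k * a k = n := by
  classical
  unfold Vec
  rw [Finset.mem_filter, Fintype.mem_piFinset]
  simp only [Finset.mem_range, Nat.lt_succ_iff]

theorem vec_card {C : ℕ} {a : ℕ → ℕ} (h : Good C a) {K n : ℕ}
    (hup : ∀ k < K, a (k + 1) ≤
      (Nat.log 2 (Nat.log 2 n)) ^ 2 * 2 ^ (Nat.log 2 (Nat.log 2 n)) * a k) :
    (Vec a K n).card * a K ≤ (Starts (Nat.log 2 (Nat.log 2 n))).card ^ (K + 1) *
      (3 * ((Nat.log 2 (Nat.log 2 n)) ^ 2 * 2 ^ (Nat.log 2 (Nat.log 2 n)))) ^ K := by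
  classical
  set J := Nat.log 2 (Nat.log 2 n) with hJ
  set L := J ^ 2 * 2 ^ J with hL
  have hst : ∀ m, (m = 0 ∨ m ∈ MSet) → m ≤ n → ∃ s ∈ Starts J, s ≤ m ∧ m - s ≤ L := by
    intro m hm hmn
    rcases hm with rfl | hm
    · exact ⟨0, by unfold Starts; exact Finset.mem_insert_self _ _, le_rfl, by simp⟩
    · exact start_of_mem hm hmn
  set st : ℕ → ℕ := fun m => if hm : ∃ s ∈ Starts J, s ≤ m ∧ m - s ≤ L then Classical.choose hm else 0
    with hstdef
  have hst2 : ∀ m, (m = 0 ∨ m ∈ MSet) → m ≤ n → st m ∈ Starts J ∧ st m ≤ m ∧ m - st m ≤ L := by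
    intro m h1 h2
    have h3 := hst m h1 h2
    have h4 := Classical.choose_spec h3
    simp only [hstdef]
    rw [dif_pos h3]
    exact h4
  have hfib : ∀ b ∈ (Vec a K n).image (fun f => fun i => st (f i)),
      ((Vec a K n).filter (fun f => (fun i => st (f i)) = b)).card ≤ (3 * L) ^ K / a K := by
    intro b _
    rw [Nat.le_div_iff_mul_le (h.pos K)]
    refine le_trans (Nat.mul_le_mul_right _ ?_) (dig_card h L K hup (n - ∑ i, b i * a i))
    refine Finset.card_le_card_of_injOn (fun f => fun i => f i - b i) ?_ ?_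
    · intro f hf
      have hf' : f ∈ (Vec a K n).filter (fun f => (fun i => st (f i)) = b) := hf
      rw [Finset.mem_filter, mem_vec] at hf'
      obtain ⟨⟨h1, h2, h3⟩, h4⟩ := hf'
      show _ ∈ Dig a L K (n - ∑ i, b i * a i)
      unfold Dig
      rw [Finset.mem_filter, Fintype.mem_piFinset]
      have h5 : ∀ i, b i ≤ f i ∧ f i - b i ≤ L := by
        intro i
        have := hst2 (f i) (h2 i) (h1 i)
        rw [← h4]
        exact this.2
      refine ⟨fun i => Finset.mem_range.2 (Nat.lt_succ_of_le (h5 i).2), ?_⟩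
      have h6 : ∑ i, (f i - b i) * a i + ∑ i, b i * a i = n := by
        rw [← Finset.sum_add_distrib, ← h3]
        refine Finset.sum_congr rfl fun i _ => ?_
        rw [← add_mul, Nat.sub_add_cancel (h5 i).1]
      show ∑ i, (f i - b i) * a i = n - ∑ i, b i * a i
      omega
    · intro f hf f' hf' hff
      have hf1 : f ∈ (Vec a K n).filter (fun f => (fun i => st (f i)) = b) := hf
      have hf2 : f' ∈ (Vec a K n).filter (fun f => (fun i => st (f i)) = b) := hf'
      rw [Finset.mem_filter, mem_vec] at hf1 hf2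
      funext i
      have h5 := (hst2 (f i) (hf1.1.2.1 i) (hf1.1.1 i)).2.1
      have h6 := (hst2 (f' i) (hf2.1.2.1 i) (hf2.1.1 i)).2.1
      have h7 : st (f i) = b i := congrFun hf1.2 i
      have h8 : st (f' i) = b i := congrFun hf2.2 i
      have h9 : f i - b i = f' i - b i := congrFun hff i
      omega
  have h1 := Finset.card_le_mul_card_image (Vec a K n) ((3 * L) ^ K / a K) hfib
  have h2 : ((Vec a K n).image (fun f => fun i => st (f i))).card ≤ (Starts J).card ^ (K + 1) := by
    have hsub : (Vec a K n).image (fun f => fun i => st (f i)) ⊆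
        Fintype.piFinset fun _ : Fin (K + 1) => Starts J := by
      intro g hg
      rw [Finset.mem_image] at hg
      obtain ⟨f, hf, rfl⟩ := hg
      rw [mem_vec] at hf
      rw [Fintype.mem_piFinset]
      intro i
      exact (hst2 (f i) (hf.2.1 i) (hf.1 i)).1
    refine (Finset.card_le_card hsub).trans ?_
    rw [Fintype.card_piFinset]
    simp
  calc (Vec a K n).card * a K
      ≤ ((3 * L) ^ K / a K * ((Vec a K n).image (fun f => fun i => st (f i))).card) * a K :=
        Nat.mul_le_mul_right _ h1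
    _ ≤ ((3 * L) ^ K / a K * (Starts J).card ^ (K + 1)) * a K :=
        Nat.mul_le_mul_right _ (Nat.mul_le_mul_left _ h2)
    _ = (Starts J).card ^ (K + 1) * ((3 * L) ^ K / a K * a K) := by ring
    _ ≤ (Starts J).card ^ (K + 1) * (3 * L) ^ K :=
        Nat.mul_le_mul_left _ (Nat.div_mul_le_self _ _)

/-- the solutions embed in the vectors -/
theorem count_le_vec {C : ℕ} {a : ℕ → ℕ} (h : Good C a) {K n : ℕ} (hK : n < a (K + 1)) :
    count (Set.range a) MSet n ≤ (Vec a K n).card := by
  classical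
  unfold count
  rw [← Set.ncard_coe_finset]
  have hbasic : ∀ m : ℕ →₀ ℕ, (m.sum fun x c => c * x) = n → ∀ x, m x * x ≤ n := by
    intro m hm x
    rw [← hm]
    by_cases hx : x ∈ m.support
    · rw [Finsupp.sum]
      exact Finset.single_le_sum (f := fun x => m x * x) (fun _ _ => Nat.zero_le _) hx
    · rw [Finsupp.notMem_support_iff] at hx
      rw [hx]; simp
  have hrange : ∀ m : ℕ →₀ ℕ, ((∀ x ∈ m.support, x ∈ Set.range a ∧ m x ∈ MSet) ∧
      (m.sum fun x c => c * x) = n) → ∀ x ∈ m.support, ∃ k : Fin (K + 1), a k = x := by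
    rintro m ⟨h1, h2⟩ x hx
    obtain ⟨k, hk⟩ := (h1 x hx).1
    have h3 := hbasic m h2 x
    have h4 : 1 ≤ m x := Nat.one_le_iff_ne_zero.2 (Finsupp.mem_support_iff.1 hx)
    have h5 : x ≤ n := by
      calc x = 1 * x := by ring
        _ ≤ m x * x := Nat.mul_le_mul_right _ h4
        _ ≤ n := h3
    have h6 : k < K + 1 := by
      by_contra hc
      have : a (K + 1) ≤ a k := h.strictMono.monotone (by omega)
      omega
    exact ⟨⟨k, h6⟩, hk⟩
  refine Set.ncard_le_ncard_of_injOn (fun m => fun k : Fin (K + 1) => m (a k)) ?_ ?_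
    (Finset.finite_toSet _)
  · rintro m ⟨h1, h2⟩
    rw [Finset.mem_coe, mem_vec]
    refine ⟨fun k => ?_, fun k => ?_, ?_⟩
    · have h3 := hbasic m h2 (a k)
      have h4 := h.pos k
      calc m (a k) = m (a k) * 1 := by ring
        _ ≤ m (a k) * a k := Nat.mul_le_mul_left _ h4
        _ ≤ n := h3
    · by_cases hk : a k ∈ m.support
      · right; exact (h1 _ hk).2
      · left; exact Finsupp.notMem_support_iff.1 hk
    · rw [← h2, Finsupp.sum]
      have hinj : Function.Injective (fun k : Fin (K + 1) => a k) := by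
        intro k k' hkk
        exact Fin.ext (h.strictMono.injective hkk)
      have hsub : m.support ⊆ Finset.univ.image (fun k : Fin (K + 1) => a k) := by
        intro x hx
        obtain ⟨k, hk⟩ := hrange m ⟨h1, h2⟩ x hx
        exact Finset.mem_image.2 ⟨k, Finset.mem_univ _, hk⟩
      rw [Finset.sum_subset hsub, Finset.sum_image (fun k _ k' _ hkk => hinj hkk)]
      intro x _ hx
      rw [Finsupp.notMem_support_iff.1 hx]; simp
  · intro m hm m' hm' hmm
    have hm1 := hrange m hm
    have hm2 := hrange m' hm'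
    ext x
    by_cases hx : ∃ k : Fin (K + 1), a k = x
    · obtain ⟨k, rfl⟩ := hx
      exact congrFun hmm k
    · have h3 : x ∉ m.support := fun hc => hx (hm1 x hc)
      have h4 : x ∉ m'.support := fun hc => hx (hm2 x hc)
      rw [Finsupp.notMem_support_iff.1 h3, Finsupp.notMem_support_iff.1 h4]

theorem vec_finite_sol {C : ℕ} {a : ℕ → ℕ} (h : Good C a) (n : ℕ) :
    {m : ℕ →₀ ℕ | (∀ x ∈ m.support, x ∈ Set.range a ∧ m x ∈ MSet) ∧
      (m.sum fun x c => c * x) = n}.Finite := by
  classical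
  -- all solutions are bounded by `n` and supported in `[0,n]`
  have hsub : {m : ℕ →₀ ℕ | (∀ x ∈ m.support, x ∈ Set.range a ∧ m x ∈ MSet) ∧
      (m.sum fun x c => c * x) = n} ⊆
      ((Finset.range (n + 1)).finsupp (fun _ => Finset.range (n + 1)) : Set (ℕ →₀ ℕ)) := by
    rintro m ⟨h1, h2⟩
    have hb : ∀ x, m x * x ≤ n := by
      intro x
      rw [← h2]
      by_cases hx : x ∈ m.support
      · rw [Finsupp.sum]
        exact Finset.single_le_sum (f := fun x => m x * x) (fun _ _ => Nat.zero_le _) hx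
      · rw [Finsupp.notMem_support_iff] at hx
        rw [hx]; simp
    rw [Finset.mem_coe, Finset.mem_finsupp_iff]
    constructor
    · intro x hx
      rw [Finset.mem_range]
      have h3 : 1 ≤ m x := Nat.one_le_iff_ne_zero.2 (Finsupp.mem_support_iff.1 hx)
      have h4 := hb x
      have : 1 * x ≤ m x * x := Nat.mul_le_mul_right _ h3
      omega
    · intro x _
      rw [Finset.mem_range]
      by_cases hx : x ∈ m.support
      · obtain ⟨k, hk⟩ := (h1 x hx).1
        have h4 := hb x
        have h5 := h.pos k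
        rw [hk] at h5
        have : m x * 1 ≤ m x * x := Nat.mul_le_mul_left _ h5
        omega
      · rw [Finsupp.notMem_support_iff.1 hx]; omega
  exact (Finset.finite_toSet _).subset hsub

theorem one_le_count {C : ℕ} {a : ℕ → ℕ} (h : Good C a) {n K : ℕ} {m : ℕ → ℕ}
    (hm : ∀ k, m k ∈ MSet) (hsum : ∑ k ∈ Finset.range (K + 1), m k * a k = n) :
    1 ≤ count (Set.range a) MSet n := by
  classical
  unfold count
  rw [Nat.one_le_iff_ne_zero]
  have hfin := vec_finite_sol h n
  set A : Finset ℕ := (Finset.range (K + 1)).image a with hA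
  set inv : ℕ → ℕ := fun x => if hx : ∃ k, a k = x then Classical.choose hx else 0 with hinv
  have hinva : ∀ k, inv (a k) = k := by
    intro k
    have hx : ∃ k', a k' = a k := ⟨k, rfl⟩
    simp only [hinv]
    rw [dif_pos hx]
    exact h.strictMono.injective (Classical.choose_spec hx)
  have hne : ∀ k, m k ≠ 0 := by
    intro k hk
    obtain ⟨j, u, d, _, _, h2⟩ := hm k
    have : 0 < 2 ^ u := by positivity
    omega
  set f : ℕ →₀ ℕ := Finsupp.onFinset A (fun x => if x ∈ A then m (inv x) else 0)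
    (by intro x hx; by_contra hc; exact hx (if_neg hc)) with hf
  have hfa : ∀ x, f x = if x ∈ A then m (inv x) else 0 := fun x => rfl
  refine Set.ncard_ne_zero_of_mem (a := f) ?_ hfin
  constructor
  · intro x hx
    have hxA : x ∈ A := by
      by_contra hc
      rw [Finsupp.mem_support_iff, hfa, if_neg hc] at hx
      exact hx rfl
    have hxA' := hxA
    rw [hA, Finset.mem_image] at hxA'
    obtain ⟨k, hk, rfl⟩ := hxA'
    refine ⟨⟨k, rfl⟩, ?_⟩
    rw [hfa, if_pos hxA]
    exact hm _
  · have hsupp : f.support ⊆ A := by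
      intro x hx
      by_contra hc
      rw [Finsupp.mem_support_iff, hfa, if_neg hc] at hx
      exact hx rfl
    rw [Finsupp.sum, Finset.sum_subset hsupp, hA, Finset.sum_image]
    · rw [← hsum]
      refine Finset.sum_congr rfl fun k hk => ?_
      have hkA : a k ∈ A := Finset.mem_image_of_mem _ hk
      rw [hfa, if_pos hkA, hinva]
    · intro k _ k' _ hkk
      exact h.strictMono.injective hkk
    · intro x _ hx
      rw [Finsupp.notMem_support_iff.1 hx]; simp

end H38RIP
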