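import Mathlib

namespace H38RIP

/-- `u` is one of the exponents of level `j`. -/
def Uexp (j u : ℕ) : Prop :=
  u = 2 ^ j ∨ ∃ r s, r < 9 * j ∧ s < 3 * j ∧ u = 2 ^ (j + 1) * (r + 1) + s

/-- the set of multiplicities -/
def MSet : Set ℕ := {m | ∃ j u d, Uexp j u ∧ d ≤ j ^ 2 * 2 ^ j ∧ m = 2 ^ u + d}

/-- `a` grows like a factorial: ratios between `2` and `C (k+1)`, and `a k ≥ ((k+1)/C)^k`. -/
structure Good (C : ℕ) (a : ℕ → ℕ) : Prop where
  zero : a 0 = 1
  two : ∀ k, 2 * a k ≤ a (k + 1)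
  up : ∀ k, a (k + 1) ≤ C * (k + 1) * a k
  low : ∀ k, (k + 1) ^ k ≤ C ^ k * a k

theorem coarse (w : ℕ → ℕ) (B : ℕ) : ∀ t : ℕ,
    (∀ q, 3 * B ≤ q → q < 3 * (B + t) → w q ≤ 2 ^ (q / 3) ∧ 2 ^ (q / 3) ≤ 3 * w q) →
    ∀ R, R < 2 ^ (B + t) → ∃ D : Finset ℕ, D ⊆ Finset.Ico (3 * B) (3 * (B + t)) ∧
      ∑ q ∈ D, w q ≤ R ∧ R < ∑ q ∈ D, w q + 2 ^ B := by
  intro t
  induction t with
  | zero =>
    intro _ R hR
    exact ⟨∅, by simp, by simp, by simpa using hR⟩
  | succ t ih =>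
    intro hw R hR
    have ih' := ih (fun q h1 h2 => hw q h1 (by omega))
    set b := B + t with hb
    have e0 : (3 * b) / 3 = b := by omega
    have e1 : (3 * b + 1) / 3 = b := by omega
    have e2 : (3 * b + 2) / 3 = b := by omega
    have w0 := hw (3 * b) (by omega) (by omega)
    have w1 := hw (3 * b + 1) (by omega) (by omega)
    have w2 := hw (3 * b + 2) (by omega) (by omega)
    rw [e0] at w0
    rw [e1] at w1
    rw [e2] at w2
    have hpow : 2 ^ (B + (t + 1)) = 2 * 2 ^ b := by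
      rw [hb, show B + (t + 1) = (B + t) + 1 by ring, pow_succ]; ring
    rw [hpow] at hR
    -- general step: add a set of new items E to D
    have key : ∀ (E : Finset ℕ), E ⊆ Finset.Ico (3 * b) (3 * b + 3) → ∑ q ∈ E, w q ≤ R →
        R - ∑ q ∈ E, w q < 2 ^ b → ∃ D : Finset ℕ,
        D ⊆ Finset.Ico (3 * B) (3 * (B + (t + 1))) ∧
        ∑ q ∈ D, w q ≤ R ∧ R < ∑ q ∈ D, w q + 2 ^ B := by
      intro E hE h1 h2
      obtain ⟨D, hD, h3, h4⟩ := ih' _ h2
      have hdis : Disjoint D E := by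
        rw [Finset.disjoint_left]
        intro q hq hq'
        have := hD hq
        have h5 := hE hq'
        rw [Finset.mem_Ico] at this h5
        omega
      refine ⟨D ∪ E, ?_, ?_, ?_⟩
      · intro q hq
        rw [Finset.mem_union] at hq
        rw [Finset.mem_Ico]
        rcases hq with hq | hq
        · have := hD hq
          rw [Finset.mem_Ico] at this
          omega
        · have := hE hq
          rw [Finset.mem_Ico] at this
          omega
      · rw [Finset.sum_union hdis]; omega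
      · rw [Finset.sum_union hdis]; omega
    by_cases c0 : R < 2 ^ b
    · exact key ∅ (by simp) (by simp) (by simpa using c0)
    by_cases c1 : R - w (3 * b) < 2 ^ b
    · refine key {3 * b} ?_ ?_ ?_
      · intro q hq
        rw [Finset.mem_singleton] at hq
        rw [Finset.mem_Ico]; omega
      · rw [Finset.sum_singleton]; omega
      · rw [Finset.sum_singleton]; exact c1
    by_cases c2 : R - (w (3 * b) + w (3 * b + 1)) < 2 ^ b
    · refine key {3 * b, 3 * b + 1} ?_ ?_ ?_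
      · intro q hq
        rw [Finset.mem_insert, Finset.mem_singleton] at hq
        rw [Finset.mem_Ico]; omega
      · rw [Finset.sum_pair (by omega)]; omega
      · rw [Finset.sum_pair (by omega)]; exact c2
    · refine key {3 * b, 3 * b + 1, 3 * b + 2} ?_ ?_ ?_
      · intro q hq
        rw [Finset.mem_insert, Finset.mem_insert, Finset.mem_singleton] at hq
        rw [Finset.mem_Ico]; omega
      · rw [Finset.sum_insert (by simp), Finset.sum_pair (by omega)]; omega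
      · rw [Finset.sum_insert (by simp), Finset.sum_pair (by omega)]; omega

theorem digits (a : ℕ → ℕ) (L : ℕ) (h0 : a 0 = 1) : ∀ K : ℕ,
    (∀ k < K, a (k + 1) ≤ L * a k) → (∀ k < K, 0 < a (k + 1)) →
    ∀ R, R ≤ L * ∑ k ∈ Finset.range (K + 1), a k →
    ∃ d : ℕ → ℕ, (∀ k, d k ≤ L) ∧ ∑ k ∈ Finset.range (K + 1), d k * a k = R := by
  intro K
  induction K with
  | zero =>
    intro _ _ R hR
    simp only [zero_add, Finset.sum_range_one, h0, mul_one] at hR
    exact ⟨fun _ => R, fun _ => hR, by simp [h0]⟩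
  | succ K ih =>
    intro hup hpos R hR
    set S := ∑ k ∈ Finset.range (K + 1), a k with hS
    have hS1 : ∑ k ∈ Finset.range (K + 1 + 1), a k = S + a (K + 1) := by
      rw [Finset.sum_range_succ]
    rw [hS1] at hR
    have hpK := hpos K (by omega)
    have hupK := hup K (by omega)
    have haS : a K ≤ S := by
      rw [hS]
      exact Finset.single_le_sum (f := a) (fun _ _ => Nat.zero_le _)
        (Finset.mem_range.2 (Nat.lt_succ_self K))
    have hdm := Nat.div_add_mod R (a (K + 1))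
    have hmod := Nat.mod_lt R hpK
    obtain ⟨q, hqL, hqR, hqS⟩ : ∃ q, q ≤ L ∧ q * a (K + 1) ≤ R ∧ R - q * a (K + 1) ≤ L * S := by
      by_cases hc : L ≤ R / a (K + 1)
      · refine ⟨L, le_rfl, ?_, ?_⟩
        · calc L * a (K + 1) ≤ (R / a (K + 1)) * a (K + 1) := Nat.mul_le_mul_right _ hc
            _ ≤ R := Nat.div_mul_le_self _ _
        · rw [mul_add] at hR; omega
      · refine ⟨R / a (K + 1), by omega, Nat.div_mul_le_self _ _, ?_⟩
        have h1 : R - R / a (K + 1) * a (K + 1) = R % a (K + 1) := by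
          rw [mul_comm] at hdm; omega
        rw [h1]
        calc R % a (K + 1) ≤ a (K + 1) := hmod.le
          _ ≤ L * a K := hupK
          _ ≤ L * S := Nat.mul_le_mul_left _ haS
    obtain ⟨d, hd, hsum⟩ := ih (fun k hk => hup k (by omega)) (fun k hk => hpos k (by omega)) _ hqS
    refine ⟨Function.update d (K + 1) q, ?_, ?_⟩
    · intro k
      by_cases hk : k = K + 1
      · subst hk; simpa using hqL
      · simpa [Function.update_of_ne hk] using hd k
    · rw [Finset.sum_range_succ]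
      have h2 : ∑ k ∈ Finset.range (K + 1), Function.update d (K + 1) q k * a k
          = ∑ k ∈ Finset.range (K + 1), d k * a k := by
        refine Finset.sum_congr rfl fun k hk => ?_
        have : k ≠ K + 1 := by
          have := Finset.mem_range.1 hk; omega
        rw [Function.update_of_ne this]
      rw [h2, hsum, Function.update_self]
      omega

namespace Good

variable {C : ℕ} {a : ℕ → ℕ}

theorem pos (h : Good C a) : ∀ k, 0 < a k
  | 0 => by rw [h.zero]; exact one_pos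
  | k + 1 => by
    have := pos h k
    have := h.two k
    omega

theorem lt_succ (h : Good C a) (k : ℕ) : a k < a (k + 1) := by
  have := h.pos k
  have := h.two k
  omega

theorem strictMono (h : Good C a) : StrictMono a := strictMono_nat_of_lt_succ h.lt_succ

theorem shift (h : Good C a) (k : ℕ) : ∀ t, 2 ^ t * a k ≤ a (k + t)
  | 0 => by simp
  | t + 1 => by
    have h1 := shift h k t
    have h2 := h.two (k + t)
    calc 2 ^ (t + 1) * a k = 2 * (2 ^ t * a k) := by ring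
      _ ≤ 2 * a (k + t) := Nat.mul_le_mul_left _ h1
      _ ≤ a (k + t + 1) := h2

theorem two_pow_le (h : Good C a) (k : ℕ) : 2 ^ k ≤ a k := by
  have := h.shift 0 k
  rw [h.zero] at this
  simpa using this

theorem sum_le (h : Good C a) : ∀ k, ∑ i ∈ Finset.range (k + 1), a i ≤ 2 * a k - 1
  | 0 => by simp [h.zero]
  | k + 1 => by
    rw [Finset.sum_range_succ]
    have h1 := sum_le h k
    have h2 := h.two k
    have h3 := h.pos k
    omega

theorem two_le (h : Good C a) : 2 ≤ C := by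
  have h1 := h.two 0
  have h2 := h.up 0
  rw [h.zero] at h1 h2
  simp only [zero_add, mul_one] at h1 h2
  omega

theorem up_bound (h : Good C a) : ∀ k, a k ≤ C ^ k * k.factorial
  | 0 => by simp [h.zero]
  | k + 1 => by
    have h1 := up_bound h k
    calc a (k + 1) ≤ C * (k + 1) * a k := h.up k
      _ ≤ C * (k + 1) * (C ^ k * k.factorial) := Nat.mul_le_mul_left _ h1
      _ = C ^ (k + 1) * (k + 1).factorial := by rw [Nat.factorial_succ]; ring

/-- for every `y ≥ 1` there is `k` with `a k ≤ y < a (k+1)` -/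
theorem exists_between (h : Good C a) {y : ℕ} (hy : 1 ≤ y) : ∃ k, a k ≤ y ∧ y < a (k + 1) := by
  have hex : ∃ k, y < a (k + 1) := ⟨y, by
    have := h.two_pow_le (y + 1)
    have h2 : y + 1 < 2 ^ (y + 1) := Nat.lt_two_pow_self
    omega⟩
  classical
  refine ⟨Nat.find hex, ?_, Nat.find_spec hex⟩
  rcases Nat.eq_zero_or_pos (Nat.find hex) with h0 | h0
  · rw [h0, h.zero]; exact hy
  · have := Nat.find_min hex (m := Nat.find hex - 1) (by omega)
    rw [show Nat.find hex - 1 + 1 = Nat.find hex by omega] at this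
    omega

end Good

/-- the level condition for `n` -/
def Lev (a : ℕ → ℕ) (n j : ℕ) : Prop := 2 ^ (2 ^ j + 1) * a (18 * j * 2 ^ j) ≤ n

theorem rep_of_level {C : ℕ} {a : ℕ → ℕ} (h : Good C a) {n j : ℕ}
    (hj : C * (36 * j + 37) ≤ j ^ 2) (hj' : 6 * j + 2 ≤ 2 ^ j)
    (h1 : Lev a n j) (h2 : ¬ Lev a n (j + 1)) :
    ∃ (K : ℕ) (m : ℕ → ℕ), (∀ k, m k ∈ MSet) ∧ ∑ k ∈ Finset.range (K + 1), m k * a k = n := by
  classical
  have hC := h.two_le
  have hjpos : 1 ≤ j := by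
    by_contra hc
    have : j = 0 := by omega
    subst this
    simp at hj
    omega
  set u0 := 2 ^ j with hu0
  set L := j ^ 2 * 2 ^ j with hL
  set S := 3 * j with hS
  have hsq : j ^ 2 ≤ 4 ^ j := by
    have h3 : j < 2 ^ j := Nat.lt_two_pow_self
    calc j ^ 2 ≤ (2 ^ j) ^ 2 := Nat.pow_le_pow_left h3.le 2
      _ = 4 ^ j := by rw [← pow_mul, mul_comm, pow_mul]; norm_num
  have hL8 : L ≤ 2 ^ S := by
    rw [hL, hS, pow_mul]
    calc j ^ 2 * 2 ^ j ≤ 4 ^ j * 2 ^ j := Nat.mul_le_mul_right _ hsq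
      _ = (2 ^ 3) ^ j := by rw [← mul_pow]; norm_num
  have h1' : 2 ^ (u0 + 1) * a (18 * j * 2 ^ j) ≤ n := h1
  -- the index k1
  have hn0 : 1 ≤ n / 2 ^ (u0 + 1) := by
    rw [Nat.one_le_div_iff (by positivity)]
    have := h.pos (18 * j * 2 ^ j)
    calc 2 ^ (u0 + 1) = 2 ^ (u0 + 1) * 1 := by ring
      _ ≤ 2 ^ (u0 + 1) * a (18 * j * 2 ^ j) := Nat.mul_le_mul_left _ this
      _ ≤ n := h1'
  obtain ⟨k1, hk1, hk1'⟩ := h.exists_between hn0
  have hk1a : 2 ^ (u0 + 1) * a k1 ≤ n := by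
    rw [Nat.le_div_iff_mul_le (by positivity)] at hk1
    rw [mul_comm]; exact hk1
  have hk1b : n < 2 ^ (u0 + 1) * a (k1 + 1) := by
    rw [Nat.div_lt_iff_lt_mul (by positivity)] at hk1'
    rw [mul_comm]; exact hk1'
  have hlo : 18 * j * 2 ^ j ≤ k1 := by
    by_contra hc
    have : a (k1 + 1) ≤ a (18 * j * 2 ^ j) := h.strictMono.monotone (by omega)
    have h3 : 2 ^ (u0 + 1) * a (k1 + 1) ≤ 2 ^ (u0 + 1) * a (18 * j * 2 ^ j) :=
      Nat.mul_le_mul_left _ this
    omega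
  have hhi : k1 + 1 ≤ (36 * j + 37) * 2 ^ j := by
    unfold Lev at h2
    push Not at h2
    have e1 : 2 ^ (2 ^ (j + 1) + 1) = 2 ^ (u0 + 1) * 2 ^ u0 := by
      rw [← pow_add, hu0]; congr 1; rw [pow_succ]; ring
    rw [e1, mul_assoc] at h2
    have h3 := h.shift (18 * (j + 1) * 2 ^ (j + 1)) u0
    have h4 : 2 ^ (u0 + 1) * a k1 < 2 ^ (u0 + 1) * a (18 * (j + 1) * 2 ^ (j + 1) + u0) :=
      calc 2 ^ (u0 + 1) * a k1 ≤ n := hk1a
        _ < 2 ^ (u0 + 1) * (2 ^ u0 * a (18 * (j + 1) * 2 ^ (j + 1))) := h2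
        _ ≤ _ := Nat.mul_le_mul_left _ h3
    have h5 := lt_of_mul_lt_mul_left h4 (Nat.zero_le _)
    have h6 := h.strictMono.lt_iff_lt.1 h5
    have e2 : 18 * (j + 1) * 2 ^ (j + 1) + u0 = (36 * j + 37) * 2 ^ j := by
      rw [hu0, pow_succ]; ring
    omega
  have hCk : ∀ k ≤ k1, C * (k + 1) ≤ L := by
    intro k hk
    calc C * (k + 1) ≤ C * ((36 * j + 37) * 2 ^ j) := Nat.mul_le_mul_left _ (by omega)
      _ = C * (36 * j + 37) * 2 ^ j := by ring
      _ ≤ L := Nat.mul_le_mul_right _ hj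
  have hratio : ∀ k ≤ k1, a (k + 1) ≤ L * a k := fun k hk =>
    (h.up k).trans (Nat.mul_le_mul_right _ (hCk k hk))
  have hratio2 : ∀ k ≤ k1, a (k + 1) ≤ 2 ^ S * a k := fun k hk =>
    (hratio k hk).trans (Nat.mul_le_mul_right _ hL8)
  -- scales
  set b0 := Nat.log 2 (a k1) with hb0
  set b1 := Nat.log 2 n with hb1
  have hak1 : a k1 ≠ 0 := (h.pos k1).ne'
  have hn : n ≠ 0 := by
    rintro rfl
    simp at hn0
  have b0a : 2 ^ b0 ≤ a k1 := Nat.pow_log_le_self 2 hak1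
  have b0b : a k1 < 2 ^ (b0 + 1) := Nat.lt_pow_succ_log_self (by norm_num) _
  have b1a : 2 ^ b1 ≤ n := Nat.pow_log_le_self 2 hn
  have b1b : n < 2 ^ (b1 + 1) := Nat.lt_pow_succ_log_self (by norm_num) _
  have hb10 : b1 ≤ u0 + S + b0 + 1 := by
    have h3 : 2 ^ b1 < 2 ^ (u0 + 1 + S + (b0 + 1)) :=
      calc 2 ^ b1 ≤ n := b1a
        _ < 2 ^ (u0 + 1) * a (k1 + 1) := hk1b
        _ ≤ 2 ^ (u0 + 1) * (2 ^ S * a k1) := Nat.mul_le_mul_left _ (hratio2 k1 le_rfl)
        _ ≤ 2 ^ (u0 + 1) * (2 ^ S * 2 ^ (b0 + 1)) :=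
          Nat.mul_le_mul_left _ (Nat.mul_le_mul_left _ b0b.le)
        _ = 2 ^ (u0 + 1 + S + (b0 + 1)) := by rw [pow_add, pow_add]; ring
    have := (Nat.pow_lt_pow_iff_right (by norm_num : 1 < 2)).1 h3
    omega
  have hb01 : b0 ≤ b1 := by
    rw [hb0, hb1]
    refine Nat.log_mono_right ?_
    calc a k1 = 1 * a k1 := by ring
      _ ≤ 2 ^ (u0 + 1) * a k1 := Nat.mul_le_mul_right _ Nat.one_le_two_pow
      _ ≤ n := hk1a
  have hb0lo : 18 * j * 2 ^ j ≤ b0 := by
    have h3 : 2 ^ (18 * j * 2 ^ j) ≤ a k1 := by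
      calc 2 ^ (18 * j * 2 ^ j) ≤ 2 ^ k1 := Nat.pow_le_pow_right (by norm_num) hlo
        _ ≤ a k1 := h.two_pow_le k1
    have h4 : 2 ^ (18 * j * 2 ^ j) < 2 ^ (b0 + 1) := lt_of_le_of_lt h3 b0b
    have := (Nat.pow_lt_pow_iff_right (by norm_num : 1 < 2)).1 h4
    omega
  have hSpos : 0 < S := by omega
  -- data of an item
  set V : ℕ → ℕ := fun q => 2 ^ (j + 1) * (3 * (q / 3 % S) + q % 3 + 1) with hV
  have hVlo : ∀ q, 2 ^ (j + 1) ≤ V q := fun q => Nat.le_mul_of_pos_right _ (by omega)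
  have hrho : ∀ q, 3 * (q / 3 % S) + q % 3 < 9 * j := by
    intro q
    have h3 := Nat.mod_lt (q / 3) hSpos
    have h4 := Nat.mod_lt q (by norm_num : 0 < 3)
    omega
  have hVhi : ∀ q, V q ≤ 18 * j * 2 ^ j := by
    intro q
    have h3 := hrho q
    calc V q ≤ 2 ^ (j + 1) * (9 * j) := Nat.mul_le_mul_left _ (by omega)
      _ = 18 * j * 2 ^ j := by rw [pow_succ]; ring
  have hu0two : 2 ^ (j + 1) = 2 * u0 := by rw [hu0, pow_succ]; ring
  have hitem : ∀ q, 3 * b0 ≤ q → q < 3 * (b1 + 1) → ∃ κ u : ℕ, κ ≤ k1 ∧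
      a κ * 2 ^ V q ≤ 2 ^ (q / 3) ∧ 2 ^ (q / 3) < 2 ^ S * a κ * 2 ^ V q ∧
      V q ≤ u ∧ u < V q + S ∧ 2 ^ u * a κ ≤ 2 ^ (q / 3) ∧ 2 ^ (q / 3) < 2 ^ (u + 1) * a κ := by
    intro q hq1 hq2
    have hb : b0 ≤ q / 3 := by omega
    have hb' : q / 3 ≤ b1 := by omega
    have hVb : V q ≤ q / 3 := (hVhi q).trans (hb0lo.trans hb)
    have hy : 1 ≤ 2 ^ (q / 3 - V q) := Nat.one_le_two_pow
    obtain ⟨κ, hκ1, hκ2⟩ := h.exists_between hy
    have epow : 2 ^ (q / 3) = 2 ^ (q / 3 - V q) * 2 ^ V q := by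
      rw [← pow_add]; congr 1; omega
    have hA : a κ * 2 ^ V q ≤ 2 ^ (q / 3) := by
      rw [epow]; exact Nat.mul_le_mul_right _ hκ1
    have hκk : κ ≤ k1 := by
      by_contra hc
      have h3 : a (k1 + 1) ≤ a κ := h.strictMono.monotone (by omega)
      have h4 : 2 ^ (u0 + 1) ≤ 2 ^ V q := Nat.pow_le_pow_right (by norm_num) (by
        have := hVlo q
        have : 1 ≤ u0 := Nat.one_le_two_pow
        omega)
      have h5 : 2 ^ (u0 + 1) * a (k1 + 1) ≤ a κ * 2 ^ V q := by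
        rw [mul_comm]; exact Nat.mul_le_mul h3 h4
      have h6 : 2 ^ (q / 3) ≤ 2 ^ b1 := Nat.pow_le_pow_right (by norm_num) hb'
      omega
    have hB : 2 ^ (q / 3) < 2 ^ S * a κ * 2 ^ V q := by
      rw [epow]
      refine Nat.mul_lt_mul_of_pos_right (hκ2.trans_le (hratio2 κ hκk)) (by positivity)
    have hu1 : 1 ≤ 2 ^ (q / 3) / a κ := by
      rw [Nat.one_le_div_iff (h.pos κ)]
      calc a κ = a κ * 1 := by ring
        _ ≤ a κ * 2 ^ V q := Nat.mul_le_mul_left _ Nat.one_le_two_pow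
        _ ≤ _ := hA
    set u := Nat.log 2 (2 ^ (q / 3) / a κ) with hu
    have hua : 2 ^ u ≤ 2 ^ (q / 3) / a κ := Nat.pow_log_le_self 2 (by omega)
    have hub : 2 ^ (q / 3) / a κ < 2 ^ (u + 1) := Nat.lt_pow_succ_log_self (by norm_num) _
    rw [Nat.le_div_iff_mul_le (h.pos κ)] at hua
    rw [Nat.div_lt_iff_lt_mul (h.pos κ)] at hub
    refine ⟨κ, u, hκk, hA, hB, ?_, ?_, hua, hub⟩
    · have h3 : 2 ^ V q * a κ < 2 ^ (u + 1) * a κ := by
        rw [mul_comm (2 ^ V q)]; exact lt_of_le_of_lt hA hub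
      have h4 := lt_of_mul_lt_mul_right h3 (Nat.zero_le _)
      have := (Nat.pow_lt_pow_iff_right (by norm_num : 1 < 2)).1 h4
      omega
    · have h3 : 2 ^ u * a κ < 2 ^ (V q + S) * a κ := by
        calc 2 ^ u * a κ ≤ 2 ^ (q / 3) := hua
          _ < 2 ^ S * a κ * 2 ^ V q := hB
          _ = 2 ^ (V q + S) * a κ := by rw [pow_add]; ring
      have h4 := lt_of_mul_lt_mul_right h3 (Nat.zero_le _)
      exact (Nat.pow_lt_pow_iff_right (by norm_num : 1 < 2)).1 h4
  choose! κ u hκk hA hB hu1 hu2 hu3 hu4 using hitem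
  -- injectivity
  have hinj : ∀ q, 3 * b0 ≤ q → q < 3 * (b1 + 1) → ∀ q', 3 * b0 ≤ q' → q' < 3 * (b1 + 1) →
      κ q = κ q' → q = q' := by
    have main : ∀ q, 3 * b0 ≤ q → q < 3 * (b1 + 1) → ∀ q', 3 * b0 ≤ q' → q' < 3 * (b1 + 1) →
        κ q = κ q' → q / 3 + V q' < q' / 3 + V q + S := by
      intro q h3 h4 q' h5 h6 he
      have h7 : 2 ^ (q / 3) * 2 ^ V q' < 2 ^ (q' / 3) * 2 ^ V q * 2 ^ S := by
        calc 2 ^ (q / 3) * 2 ^ V q' < 2 ^ S * a (κ q) * 2 ^ V q * 2 ^ V q' :=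
              Nat.mul_lt_mul_of_pos_right (hB q h3 h4) (by positivity)
          _ = (a (κ q') * 2 ^ V q') * 2 ^ V q * 2 ^ S := by rw [he]; ring
          _ ≤ 2 ^ (q' / 3) * 2 ^ V q * 2 ^ S :=
              Nat.mul_le_mul_right _ (Nat.mul_le_mul_right _ (hA q' h5 h6))
      rw [← pow_add, ← pow_add, ← pow_add] at h7
      exact (Nat.pow_lt_pow_iff_right (by norm_num : 1 < 2)).1 h7
    have hdiff : ∀ q, 3 * b0 ≤ q → q < 3 * (b1 + 1) → ∀ q', 3 * b0 ≤ q' → q' < 3 * (b1 + 1) →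
        κ q = κ q' → 3 * (q / 3 % S) + q % 3 ≤ 3 * (q' / 3 % S) + q' % 3 → 
        3 * (q / 3 % S) + q % 3 = 3 * (q' / 3 % S) + q' % 3 := by
      intro q h3 h4 q' h5 h6 he hle
      by_contra hne
      have h7 : V q + 2 ^ (j + 1) ≤ V q' := by
        have : 3 * (q / 3 % S) + q % 3 + 1 + 1 ≤ 3 * (q' / 3 % S) + q' % 3 + 1 := by omega
        calc V q + 2 ^ (j + 1) = 2 ^ (j + 1) * (3 * (q / 3 % S) + q % 3 + 1 + 1) := by
              simp only [hV]; ring
          _ ≤ V q' := Nat.mul_le_mul_left _ this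
      have h8 := main q h3 h4 q' h5 h6 he
      have h9 : q' / 3 ≤ b1 := by omega
      have h10 : b0 ≤ q / 3 := by omega
      omega
    intro q h3 h4 q' h5 h6 he
    have hrr : 3 * (q / 3 % S) + q % 3 = 3 * (q' / 3 % S) + q' % 3 := by
      rcases le_total (3 * (q / 3 % S) + q % 3) (3 * (q' / 3 % S) + q' % 3) with hc | hc
      · exact hdiff q h3 h4 q' h5 h6 he hc
      · exact (hdiff q' h5 h6 q h3 h4 he.symm hc).symm
    have hVV : V q = V q' := by simp only [hV]; rw [hrr]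
    have m1 := main q h3 h4 q' h5 h6 he
    have m2 := main q' h5 h6 q h3 h4 he.symm
    have hr3 : q % 3 = q' % 3 := by omega
    have hrS : q / 3 % S = q' / 3 % S := by omega
    have hqq : q / 3 = q' / 3 := by
      have e1 := Nat.div_add_mod (q / 3) S
      have e2 := Nat.div_add_mod (q' / 3) S
      rcases Nat.lt_trichotomy (q / 3 / S) (q' / 3 / S) with hc | hc | hc
      · have : S * (q / 3 / S) + S ≤ S * (q' / 3 / S) := by
          calc S * (q / 3 / S) + S = S * (q / 3 / S + 1) := by ring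
            _ ≤ S * (q' / 3 / S) := Nat.mul_le_mul_left _ hc
        omega
      · rw [hc] at e1; omega
      · have : S * (q' / 3 / S) + S ≤ S * (q / 3 / S) := by
          calc S * (q' / 3 / S) + S = S * (q' / 3 / S + 1) := by ring
            _ ≤ S * (q / 3 / S) := Nat.mul_le_mul_left _ hc
        omega
    omega
  -- weights
  set w : ℕ → ℕ := fun q => (2 ^ u q - 2 ^ u0) * a (κ q) with hw
  have hu0q : ∀ q, 3 * b0 ≤ q → q < 3 * (b1 + 1) → 4 * 2 ^ u0 ≤ 2 ^ u q := by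
    intro q h3 h4
    have h5 := hu1 q h3 h4
    have h6 := hVlo q
    calc 4 * 2 ^ u0 = 2 ^ (u0 + 2) := by rw [pow_add]; ring
      _ ≤ 2 ^ u q := Nat.pow_le_pow_right (by norm_num) (by
        have : 2 ≤ u0 := by
          rw [hu0]
          calc 2 = 2 ^ 1 := by norm_num
            _ ≤ 2 ^ j := Nat.pow_le_pow_right (by norm_num) hjpos
        omega)
  have hwprop : ∀ q, 3 * b0 ≤ q → q < 3 * (b0 + (b1 + 1 - b0)) →
      w q ≤ 2 ^ (q / 3) ∧ 2 ^ (q / 3) ≤ 3 * w q := by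
    intro q h3 h4'
    have h4 : q < 3 * (b1 + 1) := by omega
    have h5 := hu3 q h3 h4
    have h6 := hu4 q h3 h4
    have h7 := hu0q q h3 h4
    constructor
    · refine le_trans ?_ h5
      exact Nat.mul_le_mul_right _ (Nat.sub_le _ _)
    · refine h6.le.trans ?_
      have h8 : 2 ^ (u q + 1) ≤ 3 * (2 ^ u q - 2 ^ u0) := by
        rw [pow_succ]; omega
      calc 2 ^ (u q + 1) * a (κ q) ≤ 3 * (2 ^ u q - 2 ^ u0) * a (κ q) := Nat.mul_le_mul_right _ h8
        _ = 3 * w q := by simp only [hw]; ring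
  -- the remainder
  set T := ∑ k ∈ Finset.range (k1 + 1), a k with hT
  have hTle : T ≤ 2 * a k1 - 1 := h.sum_le k1
  have hTge : a k1 ≤ T := Finset.single_le_sum (f := a) (fun _ _ => Nat.zero_le _)
    (Finset.mem_range.2 (Nat.lt_succ_self k1))
  have hbase : 2 ^ u0 * T ≤ n := by
    calc 2 ^ u0 * T ≤ 2 ^ u0 * (2 * a k1) := Nat.mul_le_mul_left _ (by omega)
      _ = 2 ^ (u0 + 1) * a k1 := by rw [pow_succ]; ring
      _ ≤ n := hk1a
  have hR : n - 2 ^ u0 * T < 2 ^ (b0 + (b1 + 1 - b0)) := by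
    rw [show b0 + (b1 + 1 - b0) = b1 + 1 by omega]; omega
  obtain ⟨D, hD, hD1, hD2⟩ := coarse w b0 (b1 + 1 - b0) hwprop _ hR
  have hDm : ∀ q ∈ D, 3 * b0 ≤ q ∧ q < 3 * (b1 + 1) := by
    intro q hq
    have := hD hq
    rw [Finset.mem_Ico] at this
    omega
  set W := ∑ q ∈ D, w q with hW
  have hLpos : 1 ≤ L := by
    rw [hL]; exact Nat.mul_pos (Nat.pow_pos hjpos) (by positivity)
  have hR1 : n - 2 ^ u0 * T - W ≤ L * T := by
    have : n - 2 ^ u0 * T - W < a k1 := by omega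
    calc n - 2 ^ u0 * T - W ≤ T := by omega
      _ = 1 * T := by ring
      _ ≤ L * T := Nat.mul_le_mul_right _ hLpos
  obtain ⟨d, hd1, hd2⟩ := digits a L h.zero k1 (fun k hk => hratio k (by omega))
    (fun k _ => h.pos _) _ hR1
  -- the exponents
  set e : ℕ → ℕ := fun k => if hk : ∃ q ∈ D, κ q = k then u (Classical.choose hk) else u0 with he
  have heκ : ∀ q ∈ D, e (κ q) = u q := by
    intro q hq
    have hk : ∃ q' ∈ D, κ q' = κ q := ⟨q, hq, rfl⟩
    have hs := Classical.choose_spec hk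
    have h3 := hDm _ hs.1
    have h4 := hDm _ hq
    have h5 := hinj _ h3.1 h3.2 _ h4.1 h4.2 hs.2
    simp only [he]
    rw [dif_pos hk, h5]
  have hene : ∀ k, (¬ ∃ q ∈ D, κ q = k) → e k = u0 := by
    intro k hk
    simp only [he]
    rw [dif_neg hk]
  have heu : ∀ k, Uexp j (e k) := by
    intro k
    by_cases hk : ∃ q ∈ D, κ q = k
    · obtain ⟨q, hq, rfl⟩ := hk
      rw [heκ q hq]
      have h3 := hDm q hq
      have h4 := hu1 q h3.1 h3.2
      have h5 := hu2 q h3.1 h3.2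
      right
      refine ⟨3 * (q / 3 % S) + q % 3, u q - V q, hrho q, by omega, ?_⟩
      have : V q = 2 ^ (j + 1) * (3 * (q / 3 % S) + q % 3 + 1) := rfl
      omega
    · rw [hene k hk]; left; rfl
  refine ⟨k1, fun k => 2 ^ e k + d k, fun k => ⟨j, e k, d k, heu k, hd1 k, rfl⟩, ?_⟩
  have hsplit : ∑ k ∈ Finset.range (k1 + 1), (2 ^ e k + d k) * a k
      = 2 ^ u0 * T + ∑ k ∈ Finset.range (k1 + 1), (2 ^ e k - 2 ^ u0) * a k
        + ∑ k ∈ Finset.range (k1 + 1), d k * a k := by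
    rw [hT, Finset.mul_sum, ← Finset.sum_add_distrib, ← Finset.sum_add_distrib]
    refine Finset.sum_congr rfl fun k _ => ?_
    have h3 : 2 ^ u0 ≤ 2 ^ e k := by
      by_cases hk : ∃ q ∈ D, κ q = k
      · obtain ⟨q, hq, rfl⟩ := hk
        rw [heκ q hq]
        have h3 := hDm q hq
        have := hu0q q h3.1 h3.2
        omega
      · rw [hene k hk]
    rw [← add_mul, ← add_mul]
    congr 1
    omega
  have hsum : ∑ k ∈ Finset.range (k1 + 1), (2 ^ e k - 2 ^ u0) * a k = W := by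
    have hsub : D.image κ ⊆ Finset.range (k1 + 1) := by
      intro k hk
      rw [Finset.mem_image] at hk
      obtain ⟨q, hq, rfl⟩ := hk
      have h3 := hDm q hq
      rw [Finset.mem_range]
      have := hκk q h3.1 h3.2
      omega
    rw [← Finset.sum_subset hsub, Finset.sum_image]
    · rw [hW]
      refine Finset.sum_congr rfl fun q hq => ?_
      rw [heκ q hq]
    · intro q hq q' hq' hqq
      have h3 := hDm q hq
      have h4 := hDm q' hq'
      exact hinj q h3.1 h3.2 q' h4.1 h4.2 hqq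
    · intro k _ hk
      have : ¬ ∃ q ∈ D, κ q = k := by
        rintro ⟨q, hq, rfl⟩
        exact hk (Finset.mem_image_of_mem _ hq)
      rw [hene k this]
      simp
  show ∑ k ∈ Finset.range (k1 + 1), (2 ^ e k + d k) * a k = n
  rw [hsplit, hsum, hd2]
  omega

theorem exists_rep {C : ℕ} {a : ℕ → ℕ} (h : Good C a) {n j0 : ℕ}
    (hj0 : ∀ j, j0 ≤ j → C * (36 * j + 37) ≤ j ^ 2 ∧ 6 * j + 2 ≤ 2 ^ j)
    (h1 : Lev a n j0) :
    ∃ (K : ℕ) (m : ℕ → ℕ), (∀ k, m k ∈ MSet) ∧ ∑ k ∈ Finset.range (K + 1), m k * a k = n := by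
  classical
  have hlt : ∀ j, Lev a n j → j < n := by
    intro j hj
    unfold Lev at hj
    have h2 := h.pos (18 * j * 2 ^ j)
    have h3 : j < 2 ^ j := Nat.lt_two_pow_self
    have h4 : 2 ^ j < 2 ^ (2 ^ j) := Nat.lt_two_pow_self
    calc j < 2 ^ j := h3
      _ < 2 ^ (2 ^ j) := h4
      _ ≤ 2 ^ (2 ^ j + 1) := Nat.pow_le_pow_right (by norm_num) (by omega)
      _ = 2 ^ (2 ^ j + 1) * 1 := by ring
      _ ≤ 2 ^ (2 ^ j + 1) * a (18 * j * 2 ^ j) := Nat.mul_le_mul_left _ h2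
      _ ≤ n := hj
  set j := Nat.findGreatest (Lev a n) n with hj
  have h2 : Lev a n j := Nat.findGreatest_spec (hlt j0 h1).le h1
  have h3 : j0 ≤ j := Nat.le_findGreatest (hlt j0 h1).le h1
  have h4 : ¬ Lev a n (j + 1) := by
    intro hc
    have h5 := hlt _ hc
    exact Nat.findGreatest_is_greatest (P := Lev a n) (n := n) (k := j + 1)
      (by rw [← hj]; omega) h5.le hc
  exact rep_of_level h (hj0 j h3).1 (hj0 j h3).2 h2 h4

end H38RIP
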