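import Pool.Agent.Lib.H38RIP.Count

namespace H38RIP

theorem count_pow_bound {C : ℕ} {a : ℕ → ℕ} (h : Good C a) {K n : ℕ} (h1 : a K ≤ n)
    (h2 : n < a (K + 1)) (hK : 1 ≤ K) (hn : 2 ^ 2 ^ (2 * C) ≤ n) :
    count (Set.range a) MSet n ≤ (575532 * C * (C + Nat.log 2 (K + 1) + 1) ^ 9) ^ K := by
  set y := K + 1 with hy
  set l := Nat.log 2 y with hl
  set g := C + l + 1 with hg
  set J := Nat.log 2 (Nat.log 2 n) with hJ
  set L := J ^ 2 * 2 ^ J with hL
  set X := (Starts J).card with hX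
  have hC := h.two_le
  have hyl : y < 2 ^ (l + 1) := Nat.lt_pow_succ_log_self (by norm_num) _
  have hCy : C * y < 2 ^ g := by
    have h3 : C < 2 ^ C := Nat.lt_two_pow_self
    calc C * y < 2 ^ C * 2 ^ (l + 1) := Nat.mul_lt_mul'' h3 hyl
      _ = 2 ^ g := by rw [← pow_add, hg, add_assoc]
  have hny : n < (C * y) ^ y := by
    calc n < a y := h2
      _ ≤ C ^ y * y.factorial := h.up_bound y
      _ ≤ C ^ y * y ^ y := Nat.mul_le_mul_left _ (Nat.factorial_le_pow y)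
      _ = (C * y) ^ y := by rw [mul_pow]
  have hn2 : n < 2 ^ (g * y) := by
    refine hny.trans_le ?_
    rw [pow_mul]
    exact Nat.pow_le_pow_left hCy.le _
  have hnpos : n ≠ 0 := by
    have : 0 < 2 ^ 2 ^ (2 * C) := by positivity
    omega
  have hP : Nat.log 2 n < g * y := Nat.log_lt_of_lt_pow hnpos hn2
  have hP2 : 2 ^ (2 * C) ≤ Nat.log 2 n := Nat.le_log_of_pow_le (by norm_num) hn
  have hPpos : Nat.log 2 n ≠ 0 := by
    have : 0 < 2 ^ (2 * C) := by positivity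
    omega
  have hJC : 2 * C ≤ J := Nat.le_log_of_pow_le (by norm_num) hP2
  have hJP : 2 ^ J ≤ Nat.log 2 n := Nat.pow_log_le_self 2 hPpos
  have hPJ : Nat.log 2 n < 2 ^ (J + 1) := Nat.lt_pow_succ_log_self (by norm_num) _
  have hJg : J < 2 * g := by
    have h3 : 2 ^ J < 2 ^ (2 * g) := by
      calc 2 ^ J ≤ Nat.log 2 n := hJP
        _ < g * y := hP
        _ ≤ 2 ^ g * 2 ^ g := by
            refine Nat.mul_le_mul Nat.lt_two_pow_self.le (hyl.le.trans ?_)
            exact Nat.pow_le_pow_right (by norm_num) (by omega)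
        _ = 2 ^ (2 * g) := by rw [← pow_add]; congr 1; ring
    exact (Nat.pow_lt_pow_iff_right (by norm_num : 1 < 2)).1 h3
  have hLy : L ≤ 4 * g ^ 3 * y := by
    calc L ≤ (2 * g) ^ 2 * (g * y) :=
          Nat.mul_le_mul (Nat.pow_le_pow_left hJg.le 2) (hJP.trans hP.le)
      _ = 4 * g ^ 3 * y := by ring
  have hg1 : 1 ≤ g := by omega
  have hXg : X ≤ 219 * g ^ 3 := by
    refine (starts_card J).trans ?_
    have h3 : J ^ 2 ≤ (2 * g) ^ 2 := Nat.pow_le_pow_left hJg.le 2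
    calc 1 + (J + 1) * (1 + 27 * J ^ 2) ≤ 1 + (2 * g) * (1 + 27 * (2 * g) ^ 2) := by
          refine Nat.add_le_add_left (Nat.mul_le_mul (by omega) ?_) _
          exact Nat.add_le_add_left (Nat.mul_le_mul_left _ h3) _
      _ = 1 + 2 * g + 216 * g ^ 3 := by ring
      _ ≤ 219 * g ^ 3 := by
          have h4 : g ≤ g ^ 3 := Nat.le_self_pow (by norm_num) _
          omega
  have hX1 : 1 ≤ X := by
    rw [hX, Nat.one_le_iff_ne_zero, Finset.card_ne_zero]
    exact ⟨0, Finset.mem_insert_self _ _⟩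
  have hKP : K ≤ Nat.log 2 n :=
    Nat.le_log_of_pow_le (by norm_num) ((h.two_pow_le K).trans h1)
  have hup : ∀ k < K, a (k + 1) ≤ L * a k := by
    intro k hk
    refine (h.up k).trans (Nat.mul_le_mul_right _ ?_)
    calc C * (k + 1) ≤ C * 2 ^ (J + 1) := Nat.mul_le_mul_left _ (by omega)
      _ = 2 * C * 2 ^ J := by rw [pow_succ]; ring
      _ ≤ J ^ 2 * 2 ^ J := by
          refine Nat.mul_le_mul_right _ (hJC.trans ?_)
          exact Nat.le_self_pow (by norm_num) _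
  have hvec := vec_card (K := K) (n := n) h hup
  have hcv := count_le_vec h h2
  set c := count (Set.range a) MSet n with hc
  have h5 : c * a K ≤ X ^ (K + 1) * (3 * L) ^ K := (Nat.mul_le_mul_right _ hcv).trans hvec
  have hlow := h.low K
  have h6 : c * y ^ K ≤ (575532 * C * g ^ 9) ^ K * y ^ K := by
    calc c * y ^ K ≤ c * (C ^ K * a K) := Nat.mul_le_mul_left _ hlow
      _ = C ^ K * (c * a K) := by ring
      _ ≤ C ^ K * (X ^ (K + 1) * (3 * L) ^ K) := Nat.mul_le_mul_left _ h5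
      _ ≤ C ^ K * ((X * X) ^ K * (3 * L) ^ K) := by
          refine Nat.mul_le_mul_left _ (Nat.mul_le_mul_right _ ?_)
          rw [mul_pow, pow_succ]
          exact Nat.mul_le_mul_left _ (Nat.le_self_pow (by omega) _)
      _ = (C * (X * X) * (3 * L)) ^ K := by rw [mul_pow, mul_pow]; ring
      _ ≤ (C * ((219 * g ^ 3) * (219 * g ^ 3)) * (3 * (4 * g ^ 3 * y))) ^ K := by
          refine Nat.pow_le_pow_left ?_ _
          refine Nat.mul_le_mul (Nat.mul_le_mul_left _ (Nat.mul_le_mul hXg hXg)) ?_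
          exact Nat.mul_le_mul_left _ hLy
      _ = (575532 * C * g ^ 9) ^ K * y ^ K := by rw [← mul_pow]; congr 1; ring
  exact Nat.le_of_mul_le_mul_right h6 (by positivity)

theorem exists_l0 (C : ℕ) (ε : ℝ) (hε : 0 < ε) : ∃ l0 : ℕ, 1 ≤ l0 ∧ ∀ l : ℕ, l0 ≤ l →
    (575532 * (C : ℝ) * ((C : ℝ) + l + 1) ^ 9) * (C : ℝ) ^ ε ≤ ((2 : ℝ) ^ ε) ^ l := by
  set r : ℝ := (2 : ℝ) ^ ε with hr
  have hr1 : 1 < r := Real.one_lt_rpow (by norm_num) hε
  have hrpos : 0 < r := by positivity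
  have ht := tendsto_pow_const_div_const_pow_of_one_lt 9 hr1
  set δ : ℝ := 1 / (575532 * (C : ℝ) * (C : ℝ) ^ ε * r ^ (C + 1) + 1) with hδ
  have hden : 0 < 575532 * (C : ℝ) * (C : ℝ) ^ ε * r ^ (C + 1) + 1 := by positivity
  have hδpos : 0 < δ := by positivity
  have hev := (ht.eventually (gt_mem_nhds hδpos))
  rw [Filter.eventually_atTop] at hev
  obtain ⟨N, hN⟩ := hev
  refine ⟨N + 1, by omega, fun l hl => ?_⟩
  have h1 := hN (C + l + 1) (by omega)
  have hrp : 0 < r ^ (C + l + 1) := by positivity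
  rw [div_lt_iff₀ hrp] at h1
  push_cast at h1
  have h2 : (575532 * (C : ℝ) * (C : ℝ) ^ ε * r ^ (C + 1)) * δ ≤ 1 := by
    rw [hδ, mul_one_div, div_le_one hden]
    linarith
  have h3 : 0 ≤ 575532 * (C : ℝ) * (C : ℝ) ^ ε := by positivity
  calc (575532 * (C : ℝ) * ((C : ℝ) + l + 1) ^ 9) * (C : ℝ) ^ ε
      = (575532 * (C : ℝ) * (C : ℝ) ^ ε) * ((C : ℝ) + l + 1) ^ 9 := by ring
    _ ≤ (575532 * (C : ℝ) * (C : ℝ) ^ ε) * (δ * r ^ (C + l + 1)) :=
        mul_le_mul_of_nonneg_left h1.le h3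
    _ = ((575532 * (C : ℝ) * (C : ℝ) ^ ε * r ^ (C + 1)) * δ) * r ^ l := by
        rw [show C + l + 1 = (C + 1) + l by ring, pow_add]; ring
    _ ≤ 1 * r ^ l := mul_le_mul_of_nonneg_right h2 (by positivity)
    _ = r ^ l := one_mul _

theorem upper (C : ℕ) (ε : ℝ) (hε : 0 < ε) : ∃ N : ℕ, ∀ a : ℕ → ℕ, Good C a → ∀ n, N ≤ n →
    (count (Set.range a) MSet n : ℝ) ≤ (n : ℝ) ^ ε := by
  obtain ⟨l0, hl01, hl0⟩ := exists_l0 C ε hε
  refine ⟨(C * 2 ^ l0) ^ (2 ^ l0) + 2 ^ 2 ^ (2 * C), fun a h n hn => ?_⟩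
  have hC := h.two_le
  have hn1 : 2 ^ 2 ^ (2 * C) ≤ n := (Nat.le_add_left _ _).trans hn
  have hn2 : (C * 2 ^ l0) ^ (2 ^ l0) ≤ n := (Nat.le_add_right _ _).trans hn
  have hnpos : 1 ≤ n := Nat.one_le_two_pow.trans hn1
  obtain ⟨K, hK1, hK2⟩ := h.exists_between hnpos
  have hy : 2 ^ l0 ≤ K + 1 := by
    by_contra hc
    push Not at hc
    have h3 : n < (C * 2 ^ l0) ^ (2 ^ l0) := by
      calc n < a (K + 1) := hK2
        _ ≤ C ^ (K + 1) * (K + 1).factorial := h.up_bound _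
        _ ≤ C ^ (K + 1) * (K + 1) ^ (K + 1) := Nat.mul_le_mul_left _ (Nat.factorial_le_pow _)
        _ = (C * (K + 1)) ^ (K + 1) := by rw [mul_pow]
        _ ≤ (C * 2 ^ l0) ^ (K + 1) := Nat.pow_le_pow_left (Nat.mul_le_mul_left _ hc.le) _
        _ ≤ (C * 2 ^ l0) ^ (2 ^ l0) := Nat.pow_le_pow_right (by positivity) hc.le
    omega
  have hK : 1 ≤ K := by
    have : 2 ^ 1 ≤ 2 ^ l0 := Nat.pow_le_pow_right (by norm_num) hl01
    omega
  have hl : l0 ≤ Nat.log 2 (K + 1) := Nat.le_log_of_pow_le (by norm_num) hy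
  have hb := count_pow_bound h hK1 hK2 hK hn1
  have h4 := hl0 _ hl
  set l := Nat.log 2 (K + 1) with hldef
  have hyl : (2 : ℝ) ^ l ≤ (K : ℝ) + 1 := by
    have : 2 ^ l ≤ K + 1 := Nat.pow_log_le_self 2 (by omega)
    exact_mod_cast this
  have hCpos : (0 : ℝ) < C := by
    have : 0 < C := by omega
    exact_mod_cast this
  have h5 : 575532 * (C : ℝ) * ((C : ℝ) + l + 1) ^ 9 ≤ (((K : ℝ) + 1) / C) ^ ε := by
    rw [Real.div_rpow (by positivity) hCpos.le, le_div_iff₀ (by positivity)]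
    refine h4.trans ?_
    calc ((2 : ℝ) ^ ε) ^ l = ((2 : ℝ) ^ l) ^ ε := by
          rw [← Real.rpow_natCast, ← Real.rpow_natCast, ← Real.rpow_mul (by norm_num),
            ← Real.rpow_mul (by norm_num), mul_comm]
      _ ≤ ((K : ℝ) + 1) ^ ε := Real.rpow_le_rpow (by positivity) hyl hε.le
  have hlow : (((K : ℝ) + 1) / C) ^ K ≤ (n : ℝ) := by
    rw [div_pow, div_le_iff₀ (by positivity)]
    have h6 : (K + 1) ^ K ≤ C ^ K * n := (h.low K).trans (Nat.mul_le_mul_left _ hK1)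
    have h7 : ((K : ℝ) + 1) ^ K ≤ (C : ℝ) ^ K * n := by exact_mod_cast h6
    linarith [mul_comm ((C : ℝ) ^ K) (n : ℝ)]
  calc (count (Set.range a) MSet n : ℝ)
      ≤ ((575532 * C * (C + l + 1) ^ 9) ^ K : ℕ) := by exact_mod_cast hb
    _ = (575532 * (C : ℝ) * ((C : ℝ) + l + 1) ^ 9) ^ K := by push_cast; ring
    _ ≤ ((((K : ℝ) + 1) / C) ^ ε) ^ K := pow_le_pow_left₀ (by positivity) h5 _
    _ = ((((K : ℝ) + 1) / C) ^ K) ^ ε := by
        rw [← Real.rpow_natCast, ← Real.rpow_natCast, ← Real.rpow_mul (by positivity),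
          ← Real.rpow_mul (by positivity), mul_comm]
    _ ≤ (n : ℝ) ^ ε := Real.rpow_le_rpow (by positivity) hlow hε.le

theorem lower (C : ℕ) : ∃ N : ℕ, ∀ a : ℕ → ℕ, Good C a → ∀ n, N ≤ n →
    1 ≤ count (Set.range a) MSet n := by
  set j0 := 73 * C + 5 with hj0
  have hcond : ∀ j, j0 ≤ j → C * (36 * j + 37) ≤ j ^ 2 ∧ 6 * j + 2 ≤ 2 ^ j := by
    intro j hj
    constructor
    · calc C * (36 * j + 37) ≤ C * (73 * j) := Nat.mul_le_mul_left _ (by omega)
        _ = (73 * C) * j := by ring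
        _ ≤ j * j := Nat.mul_le_mul_right _ (by omega)
        _ = j ^ 2 := by ring
    · have h5 : 5 ≤ j := by omega
      clear hj
      induction j, h5 using Nat.le_induction with
      | base => norm_num
      | succ j hj ih => rw [pow_succ]; omega
  refine ⟨2 ^ (2 ^ j0 + 1) * (C ^ (18 * j0 * 2 ^ j0) * (18 * j0 * 2 ^ j0).factorial),
    fun a h n hn => ?_⟩
  have hlev : Lev a n j0 :=
    (Nat.mul_le_mul_left _ (h.up_bound _)).trans hn
  obtain ⟨K, m, hm, hsum⟩ := exists_rep h hcond hlev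
  exact one_le_count h hm hsum

theorem infinite_MSet : MSet.Infinite := by
  have : (Set.range fun j : ℕ => 2 ^ 2 ^ j) ⊆ MSet := by
    rintro _ ⟨j, rfl⟩
    exact ⟨j, 2 ^ j, 0, Or.inl rfl, Nat.zero_le _, rfl⟩
  refine Set.Infinite.mono this (Set.infinite_range_of_injective ?_)
  intro i j hij
  have h1 : 2 ^ i = 2 ^ j := Nat.pow_right_injective (le_refl 2) hij
  exact Nat.pow_right_injective (le_refl 2) h1

theorem succ_pow_le (k : ℕ) : (k + 2) ^ (k + 1) ≤ 3 * (k + 1) ^ (k + 1) := by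
  have hpos : (0 : ℝ) < (k : ℝ) + 1 := by positivity
  have h1 : (1 : ℝ) + 1 / ((k : ℝ) + 1) ≤ Real.exp (1 / ((k : ℝ) + 1)) := by
    have := Real.add_one_le_exp (1 / ((k : ℝ) + 1))
    linarith
  have h2 : ((1 : ℝ) + 1 / ((k : ℝ) + 1)) ^ (k + 1) ≤ 3 := by
    calc ((1 : ℝ) + 1 / ((k : ℝ) + 1)) ^ (k + 1)
        ≤ (Real.exp (1 / ((k : ℝ) + 1))) ^ (k + 1) := pow_le_pow_left₀ (by positivity) h1 _
      _ = Real.exp 1 := by
          rw [← Real.exp_nat_mul]; congr 1; push_cast; field_simp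
      _ ≤ 3 := by
          have := Real.exp_one_lt_d9
          linarith
  have h3 : ((k : ℝ) + 2) ^ (k + 1) ≤ 3 * ((k : ℝ) + 1) ^ (k + 1) := by
    have e : (k : ℝ) + 2 = (1 + 1 / ((k : ℝ) + 1)) * ((k : ℝ) + 1) := by field_simp; ring
    rw [e, mul_pow]
    exact mul_le_mul_of_nonneg_right h2 (by positivity)
  exact_mod_cast h3

theorem good_pow : Good 6 (fun k => (k + 1) ^ (k + 1)) where
  zero := by simp
  two k := by
    show 2 * (k + 1) ^ (k + 1) ≤ (k + 1 + 1) ^ (k + 1 + 1)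
    calc 2 * (k + 1) ^ (k + 1) ≤ (k + 1 + 1) * (k + 1 + 1) ^ (k + 1) :=
          Nat.mul_le_mul (by omega) (Nat.pow_le_pow_left (by omega) _)
      _ = (k + 1 + 1) ^ (k + 1 + 1) := by rw [pow_succ (k + 1 + 1) (k + 1)]; ring
  up k := by
    show (k + 1 + 1) ^ (k + 1 + 1) ≤ 6 * (k + 1) * (k + 1) ^ (k + 1)
    have h1 := succ_pow_le k
    calc (k + 1 + 1) ^ (k + 1 + 1) = (k + 2) ^ (k + 1) * (k + 2) := by rw [pow_succ]
      _ ≤ (3 * (k + 1) ^ (k + 1)) * (k + 2) := Nat.mul_le_mul_right _ h1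
      _ ≤ (3 * (k + 1) ^ (k + 1)) * (2 * (k + 1)) := Nat.mul_le_mul_left _ (by omega)
      _ = 6 * (k + 1) * (k + 1) ^ (k + 1) := by ring
  low k := by
    show (k + 1) ^ k ≤ 6 ^ k * (k + 1) ^ (k + 1)
    calc (k + 1) ^ k ≤ (k + 1) ^ (k + 1) := Nat.pow_le_pow_right (by omega) (by omega)
      _ = 1 * (k + 1) ^ (k + 1) := by ring
      _ ≤ 6 ^ k * (k + 1) ^ (k + 1) := Nat.mul_le_mul_right _ (Nat.one_le_pow _ _ (by norm_num))

theorem good_factorial : Good 3 (fun k => (k + 1).factorial) where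
  zero := by simp
  two k := by
    show 2 * (k + 1).factorial ≤ (k + 1 + 1).factorial
    rw [Nat.factorial_succ (k + 1)]
    exact Nat.mul_le_mul_right _ (by omega)
  up k := by
    show (k + 1 + 1).factorial ≤ 3 * (k + 1) * (k + 1).factorial
    rw [Nat.factorial_succ (k + 1)]
    exact Nat.mul_le_mul_right _ (by omega)
  low k := by
    show (k + 1) ^ k ≤ 3 ^ k * (k + 1).factorial
    induction k with
    | zero => simp
    | succ k ih =>
      calc (k + 1 + 1) ^ (k + 1) ≤ 3 * (k + 1) ^ (k + 1) := succ_pow_le k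
        _ = 3 * (k + 1) * (k + 1) ^ k := by rw [pow_succ]; ring
        _ ≤ 3 * (k + 1) * (3 ^ k * (k + 1).factorial) := Nat.mul_le_mul_left _ ih
        _ ≤ 3 * (k + 1 + 1) * (3 ^ k * (k + 1).factorial) :=
            Nat.mul_le_mul_right _ (Nat.mul_le_mul_left _ (by omega))
        _ = 3 ^ (k + 1) * (k + 1 + 1).factorial := by
            rw [Nat.factorial_succ (k + 1)]; ring

end H38RIP
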