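import Pool.Agent.Lib.H38RIP.Main

namespace H38RIP

open Real

theorem rate (C : ℕ) : ∃ N : ℕ, ∀ a : ℕ → ℕ, Good C a → ∀ n, N ≤ n →
    (count (Set.range a) MSet n : ℝ) ≤
      (n : ℝ) ^ (160 * Real.log (Real.log (Real.log n)) / Real.log (Real.log n)) := by
  set l0 := 575532 * C + 8 with hl0def
  refine ⟨(C * 2 ^ l0) ^ (2 ^ l0) + 2 ^ 2 ^ (2 * C), fun a h n hn => ?_⟩
  have hC := h.two_le
  have hn1 : 2 ^ 2 ^ (2 * C) ≤ n := (Nat.le_add_left _ _).trans hn
  have hn2 : (C * 2 ^ l0) ^ (2 ^ l0) ≤ n := (Nat.le_add_right _ _).trans hn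
  have hnpos : 1 ≤ n := Nat.one_le_two_pow.trans hn1
  obtain ⟨K, hK1, hK2⟩ := h.exists_between hnpos
  have hy : 2 ^ l0 ≤ K + 1 := by
    by_contra hc
    push Not at hc
    have h3 : n < (C * 2 ^ l0) ^ (2 ^ l0) := by
      calc n < a (K + 1) := hK2
        _ ≤ C ^ (K + 1) * (K + 1).factorial := h.up_bound _
        _ ≤ C ^ (K + 1) * (K + 1) ^ (K + 1) := Nat.mul_le_mul_left _ (Nat.factorial_le_pow _)
        _ = (C * (K + 1)) ^ (K + 1) := by rw [mul_pow]
        _ ≤ (C * 2 ^ l0) ^ (K + 1) := Nat.pow_le_pow_left (Nat.mul_le_mul_left _ hc.le) _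
        _ ≤ (C * 2 ^ l0) ^ (2 ^ l0) := Nat.pow_le_pow_right (by positivity) hc.le
    omega
  have hK : 1 ≤ K := by
    have : 2 ^ 1 ≤ 2 ^ l0 := Nat.pow_le_pow_right (by norm_num) (by omega)
    omega
  have hl : l0 ≤ Nat.log 2 (K + 1) := Nat.le_log_of_pow_le (by norm_num) hy
  have hb := count_pow_bound h hK1 hK2 hK hn1
  set l := Nat.log 2 (K + 1) with hldef
  have hylN : 2 ^ l ≤ K + 1 := Nat.pow_log_le_self 2 (by omega)
  have hyuN : K + 1 < 2 ^ (l + 1) := Nat.lt_pow_succ_log_self (by norm_num) _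
  -- the base
  have hbase : 575532 * C * (C + l + 1) ^ 9 ≤ (2 * l) ^ 10 := by
    calc 575532 * C * (C + l + 1) ^ 9 ≤ (2 * l) * (2 * l) ^ 9 :=
          Nat.mul_le_mul (by omega) (Nat.pow_le_pow_left (by omega) _)
      _ = (2 * l) ^ 10 := by ring
  have hcnt : (count (Set.range a) MSet n : ℝ) ≤ ((2 * (l : ℝ)) ^ 10) ^ K := by
    have : count (Set.range a) MSet n ≤ ((2 * l) ^ 10) ^ K :=
      hb.trans (Nat.pow_le_pow_left hbase _)
    exact_mod_cast this
  -- real variables
  set y : ℝ := (K : ℝ) + 1 with hydef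
  have hl8 : (8 : ℝ) ≤ l := by
    have : 8 ≤ l := by omega
    exact_mod_cast this
  have hlpos : (0 : ℝ) < l := by linarith
  have hyl : (2 : ℝ) ^ l ≤ y := by rw [hydef]; exact_mod_cast hylN
  have hyu : y < (2 : ℝ) ^ (l + 1) := by rw [hydef]; exact_mod_cast hyuN
  have hypos : 0 < y := lt_of_lt_of_le (by positivity) hyl
  have hlogy : (l : ℝ) * Real.log 2 ≤ Real.log y := by
    rw [← Real.log_pow]
    exact Real.log_le_log (by positivity) hyl
  have hlog2a : (0.69 : ℝ) < Real.log 2 := by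
    have := Real.log_two_gt_d9
    linarith
  have hlog2b : Real.log 2 < (0.7 : ℝ) := by
    have := Real.log_two_lt_d9
    linarith
  have hlogy2 : (l : ℝ) / 2 ≤ Real.log y := by nlinarith
  have hlogy4 : 4 ≤ Real.log y := by linarith
  have hCy : (C : ℝ) ^ 2 ≤ y := by
    have h1 : C ^ 2 ≤ 2 ^ l := by
      calc C ^ 2 ≤ (2 ^ C) ^ 2 := Nat.pow_le_pow_left Nat.lt_two_pow_self.le _
        _ = 2 ^ (C * 2) := by rw [pow_mul]
        _ ≤ 2 ^ l := Nat.pow_le_pow_right (by norm_num) (by omega)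
    have h2 : C ^ 2 ≤ K + 1 := h1.trans hylN
    rw [hydef]; exact_mod_cast h2
  have hCpos : (0 : ℝ) < C := by
    have : 0 < C := by omega
    exact_mod_cast this
  have hnR : (0 : ℝ) < n := by exact_mod_cast hnpos
  set lam := Real.log n with hlam
  -- (e) lower bound for log n
  have hlow : (K : ℝ) * (Real.log y / 2) ≤ lam := by
    have h6 : (K + 1) ^ K ≤ C ^ K * n := (h.low K).trans (Nat.mul_le_mul_left _ hK1)
    have h7 : y ^ K ≤ (C : ℝ) ^ K * n := by rw [hydef]; exact_mod_cast h6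
    have h8 := Real.log_le_log (by positivity) h7
    rw [Real.log_mul (by positivity) hnR.ne', Real.log_pow, Real.log_pow] at h8
    have h9 : 2 * Real.log C ≤ Real.log y := by
      have h10 := Real.log_le_log (by positivity) hCy
      rw [Real.log_pow] at h10
      push_cast at h10
      exact h10
    have hKr : (0 : ℝ) ≤ K := Nat.cast_nonneg _
    nlinarith
  have hK2y : y ≤ 2 * (K : ℝ) := by
    have : (1 : ℝ) ≤ K := by exact_mod_cast hK
    rw [hydef]; linarith
  have hylam : y ≤ lam := by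
    have hKr : (0 : ℝ) ≤ K := Nat.cast_nonneg _
    nlinarith
  have hlampos : 0 < lam := lt_of_lt_of_le hypos hylam
  set mu := Real.log lam with hmu
  have hmulow : Real.log y ≤ mu := Real.log_le_log hypos hylam
  have hmupos : 0 < mu := by linarith
  -- (d) upper bound for mu
  have hmuup : mu ≤ 2 * Real.log y := by
    have h1 : n < 2 ^ (2 * l * (K + 1)) := by
      calc n < a (K + 1) := hK2
        _ ≤ C ^ (K + 1) * (K + 1).factorial := h.up_bound _
        _ ≤ C ^ (K + 1) * (K + 1) ^ (K + 1) := Nat.mul_le_mul_left _ (Nat.factorial_le_pow _)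
        _ = (C * (K + 1)) ^ (K + 1) := by rw [mul_pow]
        _ ≤ (2 ^ C * 2 ^ (l + 1)) ^ (K + 1) :=
            Nat.pow_le_pow_left (Nat.mul_le_mul Nat.lt_two_pow_self.le hyuN.le) _
        _ = 2 ^ ((C + (l + 1)) * (K + 1)) := by rw [← pow_add, ← pow_mul]
        _ ≤ 2 ^ (2 * l * (K + 1)) :=
            Nat.pow_le_pow_right (by norm_num) (Nat.mul_le_mul_right _ (by omega))
    have h2 : lam ≤ 2 * l * y * Real.log 2 := by
      have h3 : (n : ℝ) ≤ (2 : ℝ) ^ (2 * l * (K + 1)) := by exact_mod_cast h1.le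
      have h4 := Real.log_le_log hnR h3
      rw [Real.log_pow] at h4
      push_cast at h4
      exact h4
    have h3 : lam ≤ 2 * l * y := by
      have : 0 ≤ 2 * (l : ℝ) * y := by positivity
      nlinarith
    have h4 : 2 * (l : ℝ) ≤ y := by
      have h5 : 2 * l ≤ 2 ^ l := by
        have : ∀ m : ℕ, 2 ≤ m → 2 * m ≤ 2 ^ m := by
          intro m hm
          induction m, hm using Nat.le_induction with
          | base => norm_num
          | succ m hm ih => rw [pow_succ]; omega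
        exact this l (by omega)
      have h6 : 2 * l ≤ K + 1 := h5.trans hylN
      rw [hydef]; exact_mod_cast h6
    have h5 : lam ≤ y * y := h3.trans (mul_le_mul_of_nonneg_right h4 hypos.le)
    have h6 := Real.log_le_log hlampos h5
    rw [Real.log_mul hypos.ne' hypos.ne'] at h6
    linarith
  -- (f)
  have hnu : Real.log (2 * (l : ℝ)) ≤ 4 * Real.log mu := by
    have h1 : (l : ℝ) / 2 ≤ mu := hlogy2.trans hmulow
    have h2 := Real.log_le_log (by positivity) h1
    have h3 : Real.log (2 * (l : ℝ)) ≤ 4 * Real.log ((l : ℝ) / 2) := by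
      have h4 : 2 * (l : ℝ) ≤ ((l : ℝ) / 2) ^ 4 := by
        have h5 : (4 : ℝ) ≤ (l : ℝ) / 2 := by linarith
        have h6 : (4 : ℝ) ^ 3 ≤ ((l : ℝ) / 2) ^ 3 := pow_le_pow_left₀ (by norm_num) h5 3
        calc 2 * (l : ℝ) = 4 * ((l : ℝ) / 2) := by ring
          _ ≤ ((l : ℝ) / 2) ^ 3 * ((l : ℝ) / 2) := by
              refine mul_le_mul_of_nonneg_right ?_ (by positivity)
              linarith
          _ = ((l : ℝ) / 2) ^ 4 := by ring
      have h7 := Real.log_le_log (by positivity) h4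
      rw [Real.log_pow] at h7
      push_cast at h7
      exact h7
    linarith
  have hnupos : 0 ≤ Real.log mu := by
    have : 1 ≤ mu := by linarith
    exact Real.log_nonneg this
  have hlog2l : 0 ≤ Real.log (2 * (l : ℝ)) := Real.log_nonneg (by linarith)
  have hKmu : (K : ℝ) * mu ≤ 4 * lam := by
    have hKr : (0 : ℝ) ≤ K := Nat.cast_nonneg _
    nlinarith
  have hfin : (K : ℝ) * (10 * Real.log (2 * (l : ℝ))) ≤ lam * (160 * Real.log mu / mu) := by
    rw [mul_div_assoc', le_div_iff₀ hmupos]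
    calc (K : ℝ) * (10 * Real.log (2 * (l : ℝ))) * mu
        = ((K : ℝ) * mu) * (10 * Real.log (2 * (l : ℝ))) := by ring
      _ ≤ (4 * lam) * (10 * (4 * Real.log mu)) := by
          refine mul_le_mul hKmu ?_ (by positivity) (by positivity)
          linarith
      _ = lam * (160 * Real.log mu) := by ring
  refine hcnt.trans ?_
  rw [Real.rpow_def_of_pos hnR]
  have h1 : ((2 * (l : ℝ)) ^ 10) ^ K = Real.exp ((K : ℝ) * (10 * Real.log (2 * (l : ℝ)))) := by
    have h2 : (2 * (l : ℝ)) ^ 10 = Real.exp (10 * Real.log (2 * (l : ℝ))) := by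
      have h3 := Real.exp_nat_mul (Real.log (2 * (l : ℝ))) 10
      rw [Real.exp_log (by positivity)] at h3
      rw [← h3]; norm_num
    rw [h2, ← Real.exp_nat_mul]
  rw [h1]
  exact Real.exp_le_exp.2 hfin

end H38RIP
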